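import Pool.Agent.Y486.MT.Ty
import Pool.Agent.Y113.MT.CStm
import Mathlib.LinearAlgebra.Basis.VectorSpace

/-!
# Project MT of helper113, coloured tensors: Hodge types of the coefficients (`S_TYC`)

Adapted from `Pool.Agent.Y486.MT.Ty` (helper486).
-/

set_option autoImplicit false

open Matrix

namespace Pool.Agent.Y988.MT

open Pool.Agent.Y113.MT Pool.Agent.Y486.MT

section
variable {F : Type} [Field F] {κ : Type} {n N r : ℕ}

/-- the coloured change of coordinates -/
def ctrg (c : Fin r → κ) (R : κ → Matrix (Fin n) (Fin n) F) (T : (Fin r → Fin n) → Fin N → F) :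
    (Fin r → Fin n) → Fin N → F :=
  fun J => ∑ I : Fin r → Fin n, (∏ a, R (c a) (I a) (J a)) • T I

lemma ctr_add (c : Fin r → κ) (R : κ → Matrix (Fin n) (Fin n) F)
    (T T' : (Fin r → Fin n) → Fin N → F) :
    ctrg c R (T + T') = ctrg c R T + ctrg c R T' := by
  funext J
  simp only [ctrg, Pi.add_apply, smul_add, Finset.sum_add_distrib]

lemma ctr_smul (c : Fin r → κ) (R : κ → Matrix (Fin n) (Fin n) F) (b : F)
    (T : (Fin r → Fin n) → Fin N → F) :
    ctrg c R (b • T) = b • ctrg c R T := by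
  funext J
  simp only [ctrg, Pi.smul_apply, Finset.smul_sum]
  exact Finset.sum_congr rfl (fun I _ => smul_comm _ _ _)

lemma ctr_ctr (c : Fin r → κ) (R S : κ → Matrix (Fin n) (Fin n) F)
    (T : (Fin r → Fin n) → Fin N → F) :
    ctrg c S (ctrg c R T) = ctrg c (fun i => R i * S i) T := by
  funext J
  simp only [ctrg, Finset.smul_sum]
  rw [Finset.sum_comm]
  apply Finset.sum_congr rfl
  intro K _
  simp only [smul_smul]
  rw [← Finset.sum_smul]
  congr 1
  simp only [Matrix.mul_apply]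
  rw [Fintype.prod_sum]
  apply Finset.sum_congr rfl
  intro I _
  rw [← Finset.prod_mul_distrib]
  exact Finset.prod_congr rfl (fun a _ => mul_comm _ _)

lemma ctr_one (c : Fin r → κ) (T : (Fin r → Fin n) → Fin N → F) :
    ctrg c (fun _ => (1 : Matrix (Fin n) (Fin n) F)) T = T := by
  funext J
  simp only [ctrg]
  rw [Finset.sum_eq_single J]
  · simp
  · intro I _ hI
    obtain ⟨a, ha⟩ := Function.ne_iff.mp hI
    have h1 : (∏ a, (1 : Matrix (Fin n) (Fin n) F) (I a) (J a)) = 0 :=
      Finset.prod_eq_zero (Finset.mem_univ a) (Matrix.one_apply_ne ha)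
    rw [h1, zero_smul]
  · intro h; exact absurd (Finset.mem_univ J) h

lemma ctr_gen {s : ℕ} (e : Fin s × Fin 2 ≃ Fin r) (c : Fin r → κ)
    (he : ∀ l, c (e (l, 0)) = c (e (l, 1))) (R Q : κ → Matrix (Fin n) (Fin n) F) (w : Fin N → F)
    (I : Fin r → Fin n) :
    ctrg c R (fun J i => (∏ l, Q (c (e (l, 0))) (J (e (l, 0))) (J (e (l, 1)))) * w i) I =
      (∏ l, ((R (c (e (l, 0))))ᵀ * Q (c (e (l, 0))) * R (c (e (l, 0)))) (I (e (l, 0)))
        (I (e (l, 1)))) • w := by
  have h1 : ∀ J : Fin r → Fin n, (∏ a, R (c a) (J a) (I a)) •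
      (fun i => (∏ l, Q (c (e (l, 0))) (J (e (l, 0))) (J (e (l, 1)))) * w i) =
      (∏ l, (R (c (e (l, 0))) (J (e (l, 0))) (I (e (l, 0))) *
        Q (c (e (l, 0))) (J (e (l, 0))) (J (e (l, 1))) *
        R (c (e (l, 0))) (J (e (l, 1))) (I (e (l, 1))))) • w := by
    intro J
    rw [prod_pair e]
    funext i
    simp only [Pi.smul_apply, smul_eq_mul, Finset.prod_mul_distrib]
    have h0 : (∏ l, R (c (e (l, 1))) (J (e (l, 1))) (I (e (l, 1)))) =
        ∏ l, R (c (e (l, 0))) (J (e (l, 1))) (I (e (l, 1))) :=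
      Finset.prod_congr rfl (fun l _ => by rw [he l])
    rw [h0]
    ring
  simp only [ctrg]
  rw [Finset.sum_congr rfl (fun J _ => h1 J), ← Finset.sum_smul]
  congr 1
  rw [← Equiv.sum_comp (pairE (n := n) e).symm]
  have h2 : ∀ K : Fin s → Fin n × Fin n,
      (∏ l, (R (c (e (l, 0))) ((pairE e).symm K (e (l, 0))) (I (e (l, 0))) *
        Q (c (e (l, 0))) ((pairE e).symm K (e (l, 0))) ((pairE e).symm K (e (l, 1))) *
        R (c (e (l, 0))) ((pairE e).symm K (e (l, 1))) (I (e (l, 1))))) =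
      ∏ l, (R (c (e (l, 0))) (K l).1 (I (e (l, 0))) * Q (c (e (l, 0))) (K l).1 (K l).2 *
        R (c (e (l, 0))) (K l).2 (I (e (l, 1)))) := by
    intro K
    apply Finset.prod_congr rfl
    intro l _
    have h3 : (pairE e).symm K (e (l, 0)) = (K l).1 := by simp [pairE]
    have h4 : (pairE e).symm K (e (l, 1)) = (K l).2 := by simp [pairE]
    rw [h3, h4]
  rw [Finset.sum_congr rfl (fun K _ => h2 K), ← Fintype.prod_sum
    (f := fun (l : Fin s) (x : Fin n × Fin n) =>
      R (c (e (l, 0))) x.1 (I (e (l, 0))) * Q (c (e (l, 0))) x.1 x.2 *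
        R (c (e (l, 0))) x.2 (I (e (l, 1))))]
  apply Finset.prod_congr rfl
  intro l _
  rw [Fintype.sum_prod_type, Matrix.mul_apply]
  rw [Finset.sum_comm]
  apply Finset.sum_congr rfl
  intro k _
  rw [Matrix.mul_apply, Finset.sum_mul]
  rfl

end

/-- the transform of the complexification at a multi-index, as a map linear over the rationals -/
noncomputable def ctrL {κ : Type} {n N r : ℕ} (c : Fin r → κ) (R : κ → Matrix (Fin n) (Fin n) ℂ)
    (I : Fin r → Fin n) :
    ((Fin r → Fin n) → Fin N → ℚ) →ₗ[ℚ] (Fin N → ℂ) where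
  toFun T := ctrg c R (cT T) I
  map_add' T T' := by
    have : cT (T + T') = cT T + cT T' := by
      funext J i; simp [cT]
    rw [this, ctr_add]; rfl
  map_smul' b T := by
    have : cT (b • T) = (b : ℂ) • cT T := by
      funext J i; simp [cT]
    rw [this, ctr_smul]
    funext i
    simp [Rat.smul_def]

/-- the general form, arbitrary type of colours -/
theorem tyc_gen {κ : Type} (m N r : ℕ) (c : Fin r → κ)
    (A : κ → Matrix (Fin (2 * m)) (Fin (2 * m)) ℚ) (B : κ → Matrix (Fin (2 * m)) (Fin (2 * m)) ℂ)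
    (k : κ → ℂ) (U : ℤ → Submodule ℂ (Fin N → ℂ)) (P : ℤ)
    (T : (Fin r → Fin (2 * m)) → Fin N → ℚ) (hm : 1 ≤ m) (hc : ∀ i, k i ≠ 0)
    (hB : ∀ i, B i * cq (A i) * (B i)ᵀ = k i • SS ℂ (2 * m))
    (hU : ∀ I : Fin r → Fin (2 * m), ctrg c (fun i => (B i)⁻¹) (cT T) I ∈
      U (P - ∑ a, ((2 * m - 1 - (I a : ℕ) : ℕ) : ℤ)))
    (hT : T ∈ Submodule.span ℚ {f : (Fin r → Fin (2 * m)) → Fin N → ℚ |
      ∃ (s : ℕ) (e : Fin s × Fin 2 ≃ Fin r) (w : Fin N → ℚ), (∀ l, c (e (l, 0)) = c (e (l, 1))) ∧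
      f = fun J i => (∏ l, (A (c (e (l, 0))))⁻¹ (J (e (l, 0))) (J (e (l, 1)))) * w i}) :
    T ∈ Submodule.span ℚ {f : (Fin r → Fin (2 * m)) → Fin N → ℚ |
      ∃ (s : ℕ) (e : Fin s × Fin 2 ≃ Fin r) (w : Fin N → ℚ), (∀ l, c (e (l, 0)) = c (e (l, 1))) ∧
      (fun i => ((w i : ℚ) : ℂ)) ∈ U (P - (s : ℤ) * (2 * (m : ℤ) - 1)) ∧
      f = fun J i => (∏ l, (A (c (e (l, 0))))⁻¹ (J (e (l, 0))) (J (e (l, 1)))) * w i} := by
  -- invertibility
  have hn : 0 < 2 * m := by omega
  have hSS : (SS ℂ (2 * m)).det ≠ 0 := by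
    intro h
    have h1 := congrArg Matrix.det (SS_mul_SS m)
    rw [Matrix.det_mul, h, zero_mul, Matrix.det_neg, Matrix.det_one, Fintype.card_fin, mul_one,
      pow_mul] at h1
    norm_num at h1
  have hdet : ∀ i, (B i * cq (A i) * (B i)ᵀ).det ≠ 0 := by
    intro i
    rw [hB, Matrix.det_smul]
    exact mul_ne_zero (pow_ne_zero _ (hc i)) hSS
  have hBdet : ∀ i, (B i).det ≠ 0 := by
    intro i h
    apply hdet i
    rw [Matrix.det_mul, Matrix.det_mul, h, zero_mul, zero_mul]
  have hAdet : ∀ i, (A i).det ≠ 0 := by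
    intro i h
    apply hdet i
    rw [Matrix.det_mul, Matrix.det_mul, cq_det, h]
    simp
  have hBu : ∀ i, IsUnit (B i).det := fun i => Ne.isUnit (hBdet i)
  have hmat : ∀ i, ((B i)⁻¹)ᵀ * cq (A i)⁻¹ * (B i)⁻¹ = (-(k i)⁻¹) • SS ℂ (2 * m) := by
    intro i
    rw [cq_inv (A i) (hAdet i), Matrix.transpose_nonsing_inv, ← Matrix.mul_inv_rev,
      ← Matrix.mul_inv_rev, ← Matrix.mul_assoc, hB]
    apply Matrix.inv_eq_left_inv
    rw [Matrix.smul_mul, Matrix.mul_smul, SS_mul_SS, smul_smul, smul_neg, ← neg_smul]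
    rw [neg_mul, neg_neg, inv_mul_cancel₀ (hc i), one_smul]
  -- vanishing of the transform outside the right type
  have hvan : ∀ I : Fin r → Fin (2 * m), ∀ T' ∈ Submodule.span ℚ
      {f : (Fin r → Fin (2 * m)) → Fin N → ℚ | ∃ (s : ℕ) (e : Fin s × Fin 2 ≃ Fin r)
        (w : Fin N → ℚ), (∀ l, c (e (l, 0)) = c (e (l, 1))) ∧
        f = fun J i => (∏ l, (A (c (e (l, 0))))⁻¹ (J (e (l, 0))) (J (e (l, 1)))) * w i},
      2 * ∑ a, ((2 * m - 1 - (I a : ℕ) : ℕ) : ℤ) ≠ (r : ℤ) * (2 * (m : ℤ) - 1) →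
      ctrL (N := N) c (fun i => (B i)⁻¹) I T' = 0 := by
    intro I T' hT' hI
    induction hT' using Submodule.span_induction with
    | mem f hf =>
      obtain ⟨s, e, w, he, rfl⟩ := hf
      have h1 : (cT (fun (J : Fin r → Fin (2 * m)) i =>
          (∏ l, (A (c (e (l, 0))))⁻¹ (J (e (l, 0))) (J (e (l, 1)))) * w i)) =
          fun (J : Fin r → Fin (2 * m)) i =>
            (∏ l, cq (A (c (e (l, 0))))⁻¹ (J (e (l, 0))) (J (e (l, 1)))) * ((w i : ℚ) : ℂ) := by
        funext J i
        simp [cT, cq_apply]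
      have h0 : ∀ T'' : (Fin r → Fin (2 * m)) → Fin N → ℚ,
          ctrL c (fun i => (B i)⁻¹) I T'' = ctrg c (fun i => (B i)⁻¹) (cT T'') I := fun _ => rfl
      rw [h0, h1, ctr_gen e c he (fun i => (B i)⁻¹) (fun i => cq (A i)⁻¹)]
      simp only [hmat]
      obtain ⟨l, hl⟩ : ∃ l, ¬ ((I (e (l, 0)) : ℕ) + (I (e (l, 1)) : ℕ) + 1 = 2 * m) := by
        by_contra hcon
        push Not at hcon
        apply hI
        have h2 : Fintype.card (Fin s × Fin 2) = Fintype.card (Fin r) := Fintype.card_congr e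
        simp only [Fintype.card_prod, Fintype.card_fin] at h2
        rw [sum_pair e]
        have h3 : ∀ l : Fin s, ((2 * m - 1 - (I (e (l, 0)) : ℕ) : ℕ) : ℤ) +
            ((2 * m - 1 - (I (e (l, 1)) : ℕ) : ℕ) : ℤ) = 2 * (m : ℤ) - 1 := by
          intro l
          have h4 := hcon l
          have h5 := (I (e (l, 0))).2
          have h6 := (I (e (l, 1))).2
          omega
        rw [Finset.sum_congr rfl (fun l _ => h3 l), Finset.sum_const, Finset.card_univ,
          Fintype.card_fin, nsmul_eq_mul, ← h2]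
        push_cast
        ring
      rw [Finset.prod_eq_zero (Finset.mem_univ l), zero_smul]
      rw [Matrix.smul_apply, SS, Matrix.of_apply, if_neg hl, smul_zero]
    | zero => exact map_zero _
    | add x y _ _ hx hy => rw [map_add, hx, hy, add_zero]
    | smul a x _ hx => rw [map_smul, hx, smul_zero]
  -- parity
  rcases Nat.even_or_odd r with hr | hr
  swap
  · -- no matchings
    have hempty : {f : (Fin r → Fin (2 * m)) → Fin N → ℚ | ∃ (s : ℕ) (e : Fin s × Fin 2 ≃ Fin r)
        (w : Fin N → ℚ), (∀ l, c (e (l, 0)) = c (e (l, 1))) ∧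
        f = fun J i => (∏ l, (A (c (e (l, 0))))⁻¹ (J (e (l, 0))) (J (e (l, 1)))) * w i} = ∅ := by
      rw [Set.eq_empty_iff_forall_notMem]
      rintro f ⟨s, e, w, _⟩
      have h2 : Fintype.card (Fin s × Fin 2) = Fintype.card (Fin r) := Fintype.card_congr e
      simp only [Fintype.card_prod, Fintype.card_fin] at h2
      obtain ⟨q, hq⟩ := hr
      omega
    rw [hempty, Submodule.span_empty, Submodule.mem_bot] at hT
    rw [hT]
    exact Submodule.zero_mem _
  · obtain ⟨s0, hs0⟩ := hr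
    -- all values are of the right type
    have hval : ∀ J : Fin r → Fin (2 * m), cT T J ∈ U (P - (s0 : ℤ) * (2 * (m : ℤ) - 1)) := by
      have h1 : ∀ I : Fin r → Fin (2 * m),
          ctrg c (fun i => (B i)⁻¹) (cT T) I ∈ U (P - (s0 : ℤ) * (2 * (m : ℤ) - 1)) := by
        intro I
        by_cases hI : 2 * ∑ a, ((2 * m - 1 - (I a : ℕ) : ℕ) : ℤ) = (r : ℤ) * (2 * (m : ℤ) - 1)
        · have h2 : ∑ a, ((2 * m - 1 - (I a : ℕ) : ℕ) : ℤ) = (s0 : ℤ) * (2 * (m : ℤ) - 1) := by
            have h3 : (r : ℤ) = s0 + s0 := by exact_mod_cast hs0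
            rw [h3] at hI
            have h4 : 2 * ∑ a, ((2 * m - 1 - (I a : ℕ) : ℕ) : ℤ) =
                2 * ((s0 : ℤ) * (2 * (m : ℤ) - 1)) := by rw [hI]; ring
            exact mul_left_cancel₀ two_ne_zero h4
          have h5 := hU I
          rw [h2] at h5
          exact h5
        · have h2 := hvan I T hT hI
          have h3 : ctrg c (fun i => (B i)⁻¹) (cT T) I = 0 := h2
          rw [h3]
          exact Submodule.zero_mem _
      intro J
      have h2 : ctrg c B (ctrg c (fun i => (B i)⁻¹) (cT T)) J = cT T J := by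
        rw [ctr_ctr]
        have h3 : (fun i => (B i)⁻¹ * B i) =
            fun _ => (1 : Matrix (Fin (2 * m)) (Fin (2 * m)) ℂ) := by
          funext i
          exact Matrix.nonsing_inv_mul _ (hBu i)
        rw [h3, ctr_one]
      rw [← h2]
      simp only [ctrg]
      apply Submodule.sum_mem
      intro I _
      exact Submodule.smul_mem _ _ (h1 I)
    -- the rational vectors of the right type
    set V : Submodule ℂ (Fin N → ℂ) := U (P - (s0 : ℤ) * (2 * (m : ℤ) - 1)) with hVdef
    let W : Submodule ℚ (Fin N → ℚ) :=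
      { carrier := {w | (fun i => ((w i : ℚ) : ℂ)) ∈ V}
        zero_mem' := by
          have : (fun i : Fin N => (((0 : Fin N → ℚ) i : ℚ) : ℂ)) = 0 := by funext i; simp
          change (fun i : Fin N => (((0 : Fin N → ℚ) i : ℚ) : ℂ)) ∈ V
          rw [this]
          exact Submodule.zero_mem _
        add_mem' := by
          intro w w' hw hw'
          have : (fun i : Fin N => (((w + w') i : ℚ) : ℂ)) =
            (fun i => ((w i : ℚ) : ℂ)) + (fun i => ((w' i : ℚ) : ℂ)) := by funext i; simp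
          change (fun i : Fin N => (((w + w') i : ℚ) : ℂ)) ∈ V
          rw [this]
          exact Submodule.add_mem _ hw hw'
        smul_mem' := by
          intro q w hw
          have : (fun i : Fin N => (((q • w) i : ℚ) : ℂ)) =
            (q : ℂ) • (fun i => ((w i : ℚ) : ℂ)) := by funext i; simp
          change (fun i : Fin N => (((q • w) i : ℚ) : ℂ)) ∈ V
          rw [this]
          exact Submodule.smul_mem _ _ hw }
    obtain ⟨g, hg⟩ := LinearMap.exists_leftInverse_of_injective W.subtype (by simp)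
    have hTW : ∀ J, (g (T J) : Fin N → ℚ) = T J := by
      intro J
      have h1 : T J ∈ W := hval J
      have h2 := LinearMap.congr_fun hg ⟨T J, h1⟩
      simp only [LinearMap.comp_apply, Submodule.subtype_apply, LinearMap.id_apply] at h2
      rw [h2]
    have hTe : T = fun J => (g (T J) : Fin N → ℚ) := funext (fun J => (hTW J).symm)
    rw [hTe]
    have key : ∀ T' ∈ Submodule.span ℚ
        {f : (Fin r → Fin (2 * m)) → Fin N → ℚ | ∃ (s : ℕ) (e : Fin s × Fin 2 ≃ Fin r)
          (w : Fin N → ℚ), (∀ l, c (e (l, 0)) = c (e (l, 1))) ∧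
          f = fun J i => (∏ l, (A (c (e (l, 0))))⁻¹ (J (e (l, 0))) (J (e (l, 1)))) * w i},
        (fun J => (g (T' J) : Fin N → ℚ)) ∈ Submodule.span ℚ
          {f : (Fin r → Fin (2 * m)) → Fin N → ℚ | ∃ (s : ℕ) (e : Fin s × Fin 2 ≃ Fin r)
            (w : Fin N → ℚ), (∀ l, c (e (l, 0)) = c (e (l, 1))) ∧
            (fun i => ((w i : ℚ) : ℂ)) ∈ U (P - (s : ℤ) * (2 * (m : ℤ) - 1)) ∧
            f = fun J i => (∏ l, (A (c (e (l, 0))))⁻¹ (J (e (l, 0))) (J (e (l, 1)))) * w i} := by
      intro T' hT'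
      induction hT' using Submodule.span_induction with
      | mem f hf =>
        obtain ⟨s, e, w, he, rfl⟩ := hf
        have h2 : Fintype.card (Fin s × Fin 2) = Fintype.card (Fin r) := Fintype.card_congr e
        simp only [Fintype.card_prod, Fintype.card_fin] at h2
        have hs : s = s0 := by omega
        apply Submodule.subset_span
        refine ⟨s, e, (g w : Fin N → ℚ), he, ?_, ?_⟩
        · rw [hs]
          exact (g w).2
        · funext J
          change (g ((∏ l, (A (c (e (l, 0))))⁻¹ (J (e (l, 0))) (J (e (l, 1)))) • w) :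
            Fin N → ℚ) = _
          rw [map_smul]
          rfl
      | zero =>
        have : (fun J : Fin r → Fin (2 * m) => (g ((0 : (Fin r → Fin (2 * m)) → Fin N → ℚ) J) :
            Fin N → ℚ)) = 0 := by
          funext J
          simp
        rw [this]
        exact Submodule.zero_mem _
      | add x y _ _ hx hy =>
        have : (fun J => (g ((x + y) J) : Fin N → ℚ)) =
            (fun J => (g (x J) : Fin N → ℚ)) + fun J => (g (y J) : Fin N → ℚ) := by
          funext J
          simp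
        rw [this]
        exact Submodule.add_mem _ hx hy
      | smul a x _ hx =>
        have : (fun J => (g ((a • x) J) : Fin N → ℚ)) =
            a • (fun J => (g (x J) : Fin N → ℚ)) := by
          funext J
          simp
        rw [this]
        exact Submodule.smul_mem _ _ hx
    exact key T hT

/-- **TYC** -/
theorem tyc : S_TYC := by
  intro m k N r c A B κ U P T hm hκ hB hU hT
  exact tyc_gen m N r c A B κ U P T hm hκ hB hU hT

end Pool.Agent.Y988.MT
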